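import Mathlib

open Filter Topology

namespace Pool.Agent.H96ent

noncomputable section

/-- The full shift space on two symbols: `true` stands for the symbol `1` and `false` for the
symbol `2`. It carries the product uniformity (and topology). -/
abbrev Seq : Type := ℤ → Bool

/-- The left shift. -/
def shift (x : Seq) : Seq := fun i => x (i + 1)

/-- The `m`-th power of the left shift, `m` an integer. -/
def shiftBy (m : ℤ) (x : Seq) : Seq := fun i => x (i + m)

/-- The diagonal matrix with entries `2` and `1 / 2`. -/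
def D : Matrix (Fin 2) (Fin 2) ℝ := !![2, 0; 0, 1 / 2]

/-- The rotation matrix. -/
def R (θ : ℝ) : Matrix (Fin 2) (Fin 2) ℝ :=
  !![Real.cos θ, -Real.sin θ; Real.sin θ, Real.cos θ]

/-- The cocycle. -/
def A (θ : ℝ) (x : Seq) : Matrix (Fin 2) (Fin 2) ℝ := if x 0 = true then D else R θ

/-- The fiber products `A(σ^(n-1) x) ⋯ A(σ x) A(x)`. -/
def fiberProd (θ : ℝ) : ℕ → Seq → Matrix (Fin 2) (Fin 2) ℝ
  | 0, _ => 1
  | n + 1, x => A θ (shiftBy n x) * fiberProd θ n x

/-- The set `B(θ, κ)`, with the norm of a matrix being the largest modulus of its entries. -/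
def Bset (θ κ : ℝ) : Set Seq :=
  {x | ∀ (m : ℤ) (n : ℕ) (i j : Fin 2), |fiberProd θ n (shiftBy m x) i j| ≤ κ}

/-- The function `h`: the supremum over `κ` of the topological entropy of the shift on the compact
invariant set `B(θ, κ)`. -/
def h (θ : ℝ) : EReal := ⨆ κ : ℝ, Dynamics.coverEntropy shift (Bset θ κ)

end

end Pool.Agent.H96ent
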