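import Mathlib

open Filter Topology

namespace Pool.Agent.H96ent

noncomputable section

/-- Hyperboloid coordinates of a state. -/
structure St where
  w : ℝ
  u : ℝ
  v : ℝ

/-- One letter acts on a state: `true` is the diagonal matrix, `false` the rotation. -/
def stp (θ : ℝ) (s : St) (b : Bool) : St :=
  if b then ⟨17 / 8 * s.w + 15 / 8 * s.u, 15 / 8 * s.w + 17 / 8 * s.u, s.v⟩
  else ⟨s.w, Real.cos (2 * θ) * s.u - Real.sin (2 * θ) * s.v,
    Real.sin (2 * θ) * s.u + Real.cos (2 * θ) * s.v⟩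

/-- A word acts on a state. -/
def run (θ : ℝ) (s : St) (l : List Bool) : St := l.foldl (stp θ) s

lemma run_nil (θ : ℝ) (s : St) : run θ s [] = s := rfl

lemma run_cons (θ : ℝ) (s : St) (b : Bool) (l : List Bool) :
    run θ s (b :: l) = run θ (stp θ s b) l := rfl

lemma run_append (θ : ℝ) (s : St) (l l' : List Bool) :
    run θ s (l ++ l') = run θ (run θ s l) l' := List.foldl_append

/-- The state lies on the upper sheet of the hyperboloid. -/
def Ok (s : St) : Prop := 0 < s.w ∧ s.w ^ 2 = 1 + s.u ^ 2 + s.v ^ 2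

lemma ok_w {s : St} (h : Ok s) : 1 ≤ s.w := by
  obtain ⟨h1, h2⟩ := h
  nlinarith [sq_nonneg s.u, sq_nonneg s.v]

lemma ok_u {s : St} (h : Ok s) : |s.u| < s.w := by
  obtain ⟨h1, h2⟩ := h
  rw [← sq_lt_sq₀ (abs_nonneg _) h1.le, sq_abs]
  nlinarith [sq_nonneg s.v]

lemma ok_stp (θ : ℝ) {s : St} (h : Ok s) (b : Bool) : Ok (stp θ s b) := by
  have h3 := ok_u h
  obtain ⟨h1, h2⟩ := h
  rw [abs_lt] at h3
  cases b
  · refine ⟨h1, ?_⟩
    simp only [stp, Bool.false_eq_true, if_false]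
    have := Real.sin_sq_add_cos_sq (2 * θ)
    nlinarith
  · refine ⟨?_, ?_⟩
    · simp only [stp, if_true]
      linarith
    · simp only [stp, if_true]
      nlinarith

lemma ok_run (θ : ℝ) (l : List Bool) : ∀ {s : St}, Ok s → Ok (run θ s l) := by
  induction l with
  | nil => intro s h; exact h
  | cons b l ih => intro s h; rw [run_cons]; exact ih (ok_stp θ h b)

lemma w_stp_le (θ : ℝ) {s : St} (h : Ok s) (b : Bool) : (stp θ s b).w ≤ 4 * s.w := by
  have h3 := ok_u h
  have h1 := h.1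
  rw [abs_lt] at h3
  cases b
  · simp only [stp, Bool.false_eq_true, if_false]
    linarith
  · simp only [stp, if_true]
    linarith

lemma w_run_le (θ : ℝ) (l : List Bool) : ∀ {s : St}, Ok s → (run θ s l).w ≤ 4 ^ l.length * s.w := by
  induction l with
  | nil => intro s _; simp [run_nil]
  | cons b l ih =>
    intro s h
    rw [run_cons, List.length_cons]
    refine (ih (ok_stp θ h b)).trans ?_
    have := w_stp_le θ h b
    calc (4 : ℝ) ^ l.length * (stp θ s b).w ≤ 4 ^ l.length * (4 * s.w) := by gcongr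
      _ = 4 ^ (l.length + 1) * s.w := by ring

lemma w_rot (θ : ℝ) (s : St) : (stp θ s false).w = s.w := by simp [stp]

lemma w_rots (θ : ℝ) (n : ℕ) : ∀ s : St, (run θ s (List.replicate n false)).w = s.w := by
  induction n with
  | zero => intro s; rfl
  | succ n ih => intro s; rw [List.replicate_succ, run_cons, ih, w_rot]

/-- Polar coordinates. -/
def Pol (s : St) (ρ ψ : ℝ) : Prop := s.u = -ρ * Real.cos ψ ∧ s.v = ρ * Real.sin ψ

lemma pol_rot (θ : ℝ) {s : St} {ρ ψ : ℝ} (h : Pol s ρ ψ) : Pol (stp θ s false) ρ (ψ - 2 * θ) := by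
  obtain ⟨h1, h2⟩ := h
  simp only [Pol, stp, Bool.false_eq_true, if_false]
  rw [Real.cos_sub, Real.sin_sub, h1, h2]
  constructor <;> ring

lemma pol_rots (θ : ℝ) (n : ℕ) : ∀ {s : St} {ρ ψ : ℝ}, Pol s ρ ψ →
    Pol (run θ s (List.replicate n false)) ρ (ψ - n * (2 * θ)) := by
  induction n with
  | zero => intro s ρ ψ h; simpa [run_nil] using h
  | succ n ih =>
    intro s ρ ψ h
    rw [List.replicate_succ, run_cons]
    have := ih (pol_rot θ h)
    push_cast
    convert this using 1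
    ring

/-- The state points back to the origin up to one rotation. -/
def Aimed (θ : ℝ) (s : St) : Prop := ∃ ρ ψ, 0 ≤ ρ ∧ 0 ≤ ψ ∧ ψ < 2 * θ ∧ Pol s ρ ψ

/-- Rotating brings a nonnegative angle into the window. -/
lemma aim_of_pol (θ : ℝ) (hθ : 0 < θ) {s : St} {ρ ψ : ℝ} (hρ : 0 ≤ ρ) (hψ : 0 ≤ ψ)
    (h : Pol s ρ ψ) (c : ℕ) (hc : ψ < (c + 1) * (2 * θ)) :
    ∃ n ≤ c, Aimed θ (run θ s (List.replicate n false)) := by
  have h2θ : 0 < 2 * θ := by linarith
  refine ⟨⌊ψ / (2 * θ)⌋₊, ?_, ρ, ψ - ⌊ψ / (2 * θ)⌋₊ * (2 * θ), hρ, ?_, ?_, pol_rots θ _ h⟩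
  · have h1 : ψ / (2 * θ) < ((c + 1 : ℕ) : ℝ) := by
      rw [div_lt_iff₀ h2θ]
      push_cast
      exact hc
    have := (Nat.floor_lt (by positivity)).2 h1
    omega
  · have h1 := Nat.floor_le (show 0 ≤ ψ / (2 * θ) by positivity)
    rw [le_div_iff₀ h2θ] at h1
    linarith
  · have h1 := Nat.lt_floor_add_one (ψ / (2 * θ))
    rw [div_lt_iff₀ h2θ] at h1
    linarith

lemma exists_pol (s : St) : ∃ ρ ψ, 0 ≤ ρ ∧ 0 ≤ ψ ∧ ψ < 2 * Real.pi ∧ Pol s ρ ψ := by
  have hpi := Real.pi_pos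
  set z : ℂ := ⟨-s.u, s.v⟩ with hz
  have h1 : ‖z‖ * Real.cos z.arg = -s.u := Complex.norm_mul_cos_arg z
  have h2 : ‖z‖ * Real.sin z.arg = s.v := Complex.norm_mul_sin_arg z
  by_cases h : 0 ≤ z.arg
  · refine ⟨‖z‖, z.arg, norm_nonneg _, h, ?_, ?_, ?_⟩
    · have := Complex.arg_le_pi z
      linarith
    · linarith
    · linarith
  · refine ⟨‖z‖, z.arg + 2 * Real.pi, norm_nonneg _, ?_, ?_, ?_, ?_⟩
    · have := Complex.neg_pi_lt_arg z
      linarith
    · push Not at h
      linarith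
    · rw [Real.cos_add_two_pi]
      linarith
    · rw [Real.sin_add_two_pi]
      linarith

/-- The number of rotations needed for aiming. -/
def rots (θ : ℝ) : ℕ := ⌈Real.pi / θ⌉₊

lemma exists_aim (θ : ℝ) (hθ : 0 < θ) (s : St) :
    ∃ n ≤ rots θ, Aimed θ (run θ s (List.replicate n false)) := by
  obtain ⟨ρ, ψ, hρ, hψ, hlt, hp⟩ := exists_pol s
  apply aim_of_pol θ hθ hρ hψ hp
  have h1 : Real.pi / θ ≤ rots θ := Nat.le_ceil _
  rw [div_le_iff₀ hθ] at h1
  nlinarith

/-- One step towards the origin. -/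
lemma step_back (θ : ℝ) (hθ : 0 < θ) (hθ' : θ ≤ 1 / 20) {s : St} (hs : Ok s) (ha : Aimed θ s)
    (hw : 7 < s.w) :
    ∃ n ≤ 5, Aimed θ (run θ s (true :: List.replicate n false)) ∧
      (run θ s (true :: List.replicate n false)).w ≤ s.w / 2 := by
  obtain ⟨ρ, ψ, hρ, hψ, hlt, hp1, hp2⟩ := ha
  obtain ⟨h1, h2⟩ := hs
  have hρsq : ρ ^ 2 = s.w ^ 2 - 1 := by
    have := Real.sin_sq_add_cos_sq ψ
    have e : s.u ^ 2 + s.v ^ 2 = ρ ^ 2 := by
      rw [hp1, hp2]
      nlinarith
    linarith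
  have hρw : ρ ≤ s.w := by nlinarith
  have hρlow : 989 / 1000 * s.w ≤ ρ := by
    rw [← pow_le_pow_iff_left₀ (by linarith) hρ two_ne_zero, hρsq]
    nlinarith
  have hcos : 995 / 1000 ≤ Real.cos ψ := by
    have := Real.one_sub_sq_div_two_le_cos (x := ψ)
    nlinarith
  have hcos1 : Real.cos ψ ≤ 1 := Real.cos_le_one ψ
  have hprod : 98 / 100 * s.w ≤ ρ * Real.cos ψ := by
    have : 989 / 1000 * s.w * (995 / 1000) ≤ ρ * Real.cos ψ := by gcongr
    nlinarith
  have hsin0 : 0 ≤ Real.sin ψ := Real.sin_nonneg_of_nonneg_of_le_pi hψ (by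
    have := Real.pi_gt_three
    linarith)
  have hsin : Real.sin ψ ≤ 2 * θ := (Real.sin_le hψ).trans hlt.le
  -- the new state
  set s' := stp θ s true with hs'
  have hw' : s'.w = 17 / 8 * s.w + 15 / 8 * s.u := by simp [hs', stp]
  have hu' : s'.u = 15 / 8 * s.w + 17 / 8 * s.u := by simp [hs', stp]
  have hv' : s'.v = s.v := by simp [hs', stp]
  have hneg : s.w / 5 ≤ -s'.u := by rw [hu', hp1]; linarith
  have hv0 : 0 ≤ s'.v := by rw [hv', hp2]; positivity
  have hv1 : s'.v ≤ 2 * θ * s.w := by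
    rw [hv', hp2]
    calc ρ * Real.sin ψ ≤ s.w * (2 * θ) := by gcongr
      _ = 2 * θ * s.w := by ring
  set z : ℂ := ⟨-s'.u, s'.v⟩ with hz
  have e1 : ‖z‖ * Real.cos z.arg = -s'.u := Complex.norm_mul_cos_arg z
  have e2 : ‖z‖ * Real.sin z.arg = s'.v := Complex.norm_mul_sin_arg z
  have hre : 0 < z.re := by
    change 0 < -s'.u
    linarith
  have harg0 : 0 ≤ z.arg := Complex.arg_nonneg_iff.2 hv0
  have harg1 : z.arg < Real.pi / 2 := by
    have := Complex.abs_arg_lt_pi_div_two_iff.2 (Or.inl hre)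
    exact (abs_lt.1 this).2
  have harg2 : z.arg ≤ 10 * θ := by
    have h3 := Real.le_tan harg0 harg1
    rw [Complex.tan_arg] at h3
    refine h3.trans ?_
    rw [div_le_iff₀ hre]
    change s'.v ≤ 10 * θ * -s'.u
    have : 10 * θ * (s.w / 5) ≤ 10 * θ * -s'.u := by gcongr
    linarith
  have hpol : Pol s' ‖z‖ z.arg := ⟨by linarith, e2.symm⟩
  obtain ⟨n, hn, haim⟩ := aim_of_pol θ hθ (norm_nonneg z) harg0 hpol 5 (by push_cast; linarith)
  refine ⟨n, hn, haim, ?_⟩
  rw [run_cons, w_rots, ← hs', hw', hp1]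
  linarith

/-- Return to the ball. -/
lemma return_word (θ : ℝ) (hθ : 0 < θ) (hθ' : θ ≤ 1 / 20) (m : ℕ) : ∀ {s : St}, Ok s → Aimed θ s →
    s.w ≤ 2 ^ m * 7 → ∃ l : List Bool, l.length ≤ 6 * m ∧ (run θ s l).w ≤ 7 := by
  induction m with
  | zero =>
    intro s _ _ hw
    exact ⟨[], by simp, by simpa [run_nil] using hw⟩
  | succ m ih =>
    intro s hs ha hw
    by_cases h7 : s.w ≤ 7
    · exact ⟨[], by simp, by simpa [run_nil] using h7⟩
    · push Not at h7
      obtain ⟨n, hn, ha', hw'⟩ := step_back θ hθ hθ' hs ha h7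
      obtain ⟨l, hl, hl'⟩ := ih (ok_run θ _ hs) ha' (by
        rw [pow_succ] at hw
        linarith)
      refine ⟨(true :: List.replicate n false) ++ l, ?_, ?_⟩
      · simp only [List.length_append, List.length_cons, List.length_replicate]
        omega
      · rw [run_append]
        exact hl'

/-- Every free word can be completed to an excursion of fixed length. -/
lemma excursion (θ : ℝ) (hθ : 0 < θ) (hθ' : θ ≤ 1 / 20) {s : St} (hs : Ok s) (hw : s.w ≤ 7)
    (l : List Bool) : ∃ l' : List Bool, l'.length = 12 * l.length + rots θ ∧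
      (run θ s (l ++ l')).w ≤ 7 := by
  obtain ⟨n, hn, ha⟩ := exists_aim θ hθ (run θ s l)
  have hok : Ok (run θ (run θ s l) (List.replicate n false)) := ok_run θ _ (ok_run θ _ hs)
  obtain ⟨l1, hl1, hw1⟩ := return_word θ hθ hθ' (2 * l.length) hok ha (by
    rw [w_rots, pow_mul]
    refine (w_run_le θ l hs).trans ?_
    norm_num
    gcongr)
  refine ⟨List.replicate n false ++ (l1 ++ List.replicate
    (12 * l.length + rots θ - n - l1.length) false), ?_, ?_⟩
  · simp only [List.length_append, List.length_replicate]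
    omega
  · rw [run_append, run_append, run_append, w_rots]
    exact hw1

end

end Pool.Agent.H96ent
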