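import Mathlib
import Pool.Agent.H96ent.Defs
import Pool.Agent.H96ent.Turtle

open Filter Topology

namespace Pool.Agent.H96ent

noncomputable section

/-- One letter as a matrix. -/
def lett (θ : ℝ) (b : Bool) : Matrix (Fin 2) (Fin 2) ℝ := if b = true then D else R θ

/-- A word acts on a matrix. -/
def mats (θ : ℝ) (M : Matrix (Fin 2) (Fin 2) ℝ) (l : List Bool) : Matrix (Fin 2) (Fin 2) ℝ :=
  l.foldl (fun M b => lett θ b * M) M

/-- The state of a matrix. -/
def stOf (M : Matrix (Fin 2) (Fin 2) ℝ) : St :=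
  ⟨((M 0 0 ^ 2 + M 0 1 ^ 2) + (M 1 0 ^ 2 + M 1 1 ^ 2)) / 2,
    ((M 0 0 ^ 2 + M 0 1 ^ 2) - (M 1 0 ^ 2 + M 1 1 ^ 2)) / 2,
    M 0 0 * M 1 0 + M 0 1 * M 1 1⟩

lemma stOf_lett (θ : ℝ) (M : Matrix (Fin 2) (Fin 2) ℝ) (b : Bool) :
    stOf (lett θ b * M) = stp θ (stOf M) b := by
  cases b
  · have h1 := Real.cos_two_mul θ
    have h2 := Real.sin_two_mul θ
    have h3 := Real.sin_sq_add_cos_sq θ
    simp only [lett, stp, Bool.false_eq_true, if_false, stOf, R, Matrix.mul_apply,
      Fin.sum_univ_two, Matrix.of_apply, Matrix.cons_val', Matrix.cons_val_zero,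
      Matrix.cons_val_one, Matrix.cons_val_fin_one, h1, h2]
    congr 1
    · linear_combination (M 0 0 ^ 2 + M 0 1 ^ 2 + M 1 0 ^ 2 + M 1 1 ^ 2) / 2 * h3
    · linear_combination (-(M 0 0 ^ 2 + M 0 1 ^ 2) + (M 1 0 ^ 2 + M 1 1 ^ 2)) / 2 * h3
    · linear_combination (-(M 0 0 * M 1 0 + M 0 1 * M 1 1)) * h3
  · simp only [lett, stp, if_true, stOf, D, Matrix.mul_apply,
      Fin.sum_univ_two, Matrix.of_apply, Matrix.cons_val', Matrix.cons_val_zero,
      Matrix.cons_val_one, Matrix.cons_val_fin_one]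
    congr 1 <;> ring

lemma stOf_mats (θ : ℝ) (l : List Bool) : ∀ M, stOf (mats θ M l) = run θ (stOf M) l := by
  induction l with
  | nil => intro M; rfl
  | cons b l ih =>
    intro M
    rw [run_cons, ← stOf_lett, ← ih]
    rfl

lemma mats_append (θ : ℝ) (M : Matrix (Fin 2) (Fin 2) ℝ) (l l' : List Bool) :
    mats θ M (l ++ l') = mats θ (mats θ M l) l' := List.foldl_append

lemma det_lett (θ : ℝ) (b : Bool) : (lett θ b).det = 1 := by
  cases b
  · simp only [lett, Bool.false_eq_true, if_false, R, Matrix.det_fin_two_of]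
    have h3 := Real.sin_sq_add_cos_sq θ
    linarith
  · simp only [lett, if_true, D, Matrix.det_fin_two_of]
    norm_num

lemma det_mats (θ : ℝ) (l : List Bool) : ∀ M, (mats θ M l).det = M.det := by
  induction l with
  | nil => intro M; rfl
  | cons b l ih =>
    intro M
    have : mats θ M (b :: l) = mats θ (lett θ b * M) l := rfl
    rw [this, ih, Matrix.det_mul, det_lett, one_mul]

/-- The initial state. -/
def s0 : St := ⟨1, 0, 0⟩

lemma stOf_one : stOf 1 = s0 := by
  simp only [stOf, s0, Matrix.one_apply]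
  norm_num

lemma ok_s0 : Ok s0 := by
  constructor <;> simp [s0]

lemma entry_sq_le (M : Matrix (Fin 2) (Fin 2) ℝ) (i j : Fin 2) : M i j ^ 2 ≤ 2 * (stOf M).w := by
  simp only [stOf]
  have h00 := sq_nonneg (M 0 0)
  have h01 := sq_nonneg (M 0 1)
  have h10 := sq_nonneg (M 1 0)
  have h11 := sq_nonneg (M 1 1)
  fin_cases i <;> fin_cases j <;> simp only [Fin.zero_eta, Fin.mk_one] <;> linarith

/-- The sequence which reads the word `l` on `[0, l.length)` and the symbol `2` elsewhere. -/
def seqOf (l : List Bool) : Seq := fun i => if 0 ≤ i then l.getD i.toNat false else false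

/-- The first `i` letters. -/
def pre (l : List Bool) (i : ℕ) : List Bool := l.take i ++ List.replicate (i - l.length) false

lemma pre_succ (l : List Bool) (i : ℕ) : pre l (i + 1) = pre l i ++ [l.getD i false] := by
  rw [pre, pre]
  by_cases h : i < l.length
  · have h1 : i + 1 - l.length = 0 := by omega
    have h2 : i - l.length = 0 := by omega
    rw [h1, h2, List.replicate_zero, List.append_nil, List.append_nil, List.take_succ_eq_append_getElem h,
      List.getD_eq_getElem _ _ h]
  · push Not at h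
    have h1 : i + 1 - l.length = (i - l.length) + 1 := by omega
    rw [List.take_of_length_le (by omega), List.take_of_length_le h, h1, List.replicate_succ',
      List.append_assoc, List.getD_eq_default _ _ h]

/-- The absolute products. -/
def SS (θ : ℝ) (l : List Bool) (i : ℤ) : Matrix (Fin 2) (Fin 2) ℝ :=
  if 0 ≤ i then mats θ 1 (pre l i.toNat) else R (i * θ)

lemma R_mul (a b : ℝ) : R a * R b = R (a + b) := by
  rw [R, R, R, Real.cos_add, Real.sin_add]
  ext i j
  fin_cases i <;> fin_cases j <;>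
    simp [Matrix.mul_apply, Fin.sum_univ_two] <;> ring

lemma R_zero : R 0 = 1 := by
  ext i j
  fin_cases i <;> fin_cases j <;> simp [R]

lemma SS_succ (θ : ℝ) (l : List Bool) (i : ℤ) :
    SS θ l (i + 1) = lett θ (seqOf l i) * SS θ l i := by
  by_cases h0 : 0 ≤ i
  · obtain ⟨n, rfl⟩ := Int.eq_ofNat_of_zero_le h0
    have h1 : (0 : ℤ) ≤ (n : ℤ) + 1 := by omega
    have h2 : ((n : ℤ) + 1).toNat = n + 1 := by omega
    rw [SS, SS, if_pos h1, if_pos h0, h2, Int.toNat_natCast, pre_succ, mats_append, seqOf,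
      if_pos h0, Int.toNat_natCast]
    rfl
  · have hs : seqOf l i = false := by rw [seqOf, if_neg h0]
    have hl : lett θ false = R θ := by simp [lett]
    rw [hs, hl]
    by_cases h1 : i + 1 = 0
    · rw [h1]
      have h2 : (i : ℝ) = -1 := by
        have : i = -1 := by omega
        rw [this]; norm_num
      rw [SS, SS, if_pos le_rfl, if_neg h0, R_mul, h2]
      have h3 : pre l (0 : ℤ).toNat = [] := by simp [pre]
      rw [h3]
      have h4 : θ + -1 * θ = 0 := by ring
      rw [h4, R_zero]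
      rfl
    · rw [SS, SS, if_neg (by omega), if_neg h0, R_mul]
      congr 1
      push_cast
      ring

lemma fiberProd_mul (θ : ℝ) (l : List Bool) (m : ℤ) (n : ℕ) :
    fiberProd θ n (shiftBy m (seqOf l)) * SS θ l m = SS θ l (m + n) := by
  induction n with
  | zero => simp [fiberProd]
  | succ n ih =>
    rw [fiberProd, Matrix.mul_assoc, ih]
    have h1 : m + ((n + 1 : ℕ) : ℤ) = (m + n) + 1 := by push_cast; ring
    rw [h1, SS_succ]
    congr 1
    rw [A, lett]
    have h2 : shiftBy (n : ℤ) (shiftBy m (seqOf l)) 0 = seqOf l (m + n) := by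
      simp only [shiftBy]
      congr 1
      ring
    rw [h2]

lemma det_SS (θ : ℝ) (l : List Bool) (i : ℤ) : (SS θ l i).det = 1 := by
  rw [SS]
  split_ifs
  · rw [det_mats, Matrix.det_one]
  · rw [R, Matrix.det_fin_two_of]
    have h3 := Real.sin_sq_add_cos_sq (i * θ)
    linarith

lemma SS_sq_le (θ : ℝ) (l : List Bool) (W : ℝ) (hW : 1 ≤ W)
    (hl : ∀ i, (run θ s0 (l.take i)).w ≤ W) (i : ℤ) (a b : Fin 2) :
    SS θ l i a b ^ 2 ≤ 2 * W := by
  rw [SS]
  split_ifs
  · refine (entry_sq_le _ a b).trans ?_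
    rw [stOf_mats, stOf_one, pre, run_append, w_rots]
    have := hl i.toNat
    linarith
  · have h1 := Real.cos_sq_le_one (i * θ)
    have h2 := Real.sin_sq_le_one (i * θ)
    fin_cases a <;> fin_cases b <;> simp [R] <;> linarith

lemma seqOf_mem (θ : ℝ) (l : List Bool) (W : ℝ) (hW : 1 ≤ W)
    (hl : ∀ i, (run θ s0 (l.take i)).w ≤ W) : seqOf l ∈ Bset θ (4 * W) := by
  intro m n i j
  have h1 := fiberProd_mul θ l m n
  have hdet := det_SS θ l m
  have h2 : fiberProd θ n (shiftBy m (seqOf l)) = SS θ l (m + n) * (SS θ l m).adjugate := by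
    rw [← h1, Matrix.mul_assoc, Matrix.mul_adjugate, hdet, one_smul, Matrix.mul_one]
  have hA := SS_sq_le θ l W hW hl (m + n)
  have hB := SS_sq_le θ l W hW hl m
  rw [h2, Matrix.adjugate_fin_two, Matrix.mul_apply, Fin.sum_univ_two]
  have key : ∀ a b c d : ℝ, a ^ 2 ≤ 2 * W → b ^ 2 ≤ 2 * W → c ^ 2 ≤ 2 * W → d ^ 2 ≤ 2 * W →
      |a * b + c * d| ≤ 4 * W := by
    intro a b c d ha hb hc hd
    rw [abs_le]
    constructor <;> nlinarith [sq_nonneg (a - b), sq_nonneg (a + b), sq_nonneg (c - d),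
      sq_nonneg (c + d)]
  apply key
  · exact hA i 0
  · fin_cases j
    · simpa using hB 1 1
    · simpa using hB 0 1
  · exact hA i 1
  · fin_cases j
    · simpa using hB 1 0
    · simpa using hB 0 0

end

end Pool.Agent.H96ent
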