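import Mathlib
import Pool.Agent.H96ent.Cocycle

open Filter Topology

namespace Pool.Agent.H96ent

noncomputable section

lemma exists_nu (θ : ℝ) (hθ : 0 < θ) (hθ' : θ ≤ 1 / 20) : ∃ ν : St → List Bool → List Bool,
    (∀ s l, (ν s l).length = 12 * l.length + rots θ) ∧
    ∀ s l, Ok s → s.w ≤ 7 → (run θ s (l ++ ν s l)).w ≤ 7 := by
  classical
  have h : ∀ (s : St) (l : List Bool), ∃ l' : List Bool, l'.length = 12 * l.length + rots θ ∧
      (Ok s → s.w ≤ 7 → (run θ s (l ++ l')).w ≤ 7) := by
    intro s l
    by_cases hs : Ok s ∧ s.w ≤ 7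
    · obtain ⟨l', h1, h2⟩ := excursion θ hθ hθ' hs.1 hs.2 l
      exact ⟨l', h1, fun _ _ => h2⟩
    · exact ⟨List.replicate (12 * l.length + rots θ) false, by simp,
        fun h1 h2 => absurd ⟨h1, h2⟩ hs⟩
  choose ν h1 h2 using h
  exact ⟨ν, h1, h2⟩

/-- Concatenation of excursions. -/
def code (θ : ℝ) (ν : St → List Bool → List Bool) : St → List (List Bool) → List Bool
  | _, [] => []
  | s, a :: t => (a ++ ν s a) ++ code θ ν (run θ s (a ++ ν s a)) t

section

variable (θ : ℝ) (ν : St → List Bool → List Bool)
  (hν1 : ∀ s l, (ν s l).length = 12 * l.length + rots θ)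
  (hν2 : ∀ s l, Ok s → s.w ≤ 7 → (run θ s (l ++ ν s l)).w ≤ 7)

include hν1

lemma code_length (N : ℕ) (t : List (List Bool)) : ∀ (s : St), (∀ a ∈ t, a.length = N) →
    (code θ ν s t).length = (13 * N + rots θ) * t.length := by
  induction t with
  | nil => intro s _; simp [code]
  | cons a t ih =>
    intro s h
    rw [code, List.length_append, List.length_append, hν1, ih _ (fun b hb => h b (by simp [hb])),
      h a (by simp), List.length_cons]
    ring

lemma code_inj (N : ℕ) (t : List (List Bool)) : ∀ (s : St) (t' : List (List Bool)),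
    (∀ a ∈ t, a.length = N) → (∀ a ∈ t', a.length = N) → t.length = t'.length →
    code θ ν s t = code θ ν s t' → t = t' := by
  induction t with
  | nil =>
    intro s t' _ _ hl _
    symm
    exact List.eq_nil_of_length_eq_zero (by simpa using hl.symm)
  | cons a t ih =>
    intro s t' h h' hl he
    cases t' with
    | nil => simp at hl
    | cons a' t' =>
      have ha : a.length = N := h a (by simp)
      have ha' : a'.length = N := h' a' (by simp)
      rw [code, code] at he
      have hlen : (a ++ ν s a).length = (a' ++ ν s a').length := by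
        rw [List.length_append, List.length_append, hν1, hν1, ha, ha']
      obtain ⟨h1, h2⟩ := List.append_inj he hlen
      obtain ⟨h3, _⟩ := List.append_inj h1 (by rw [ha, ha'])
      subst h3
      rw [ih _ t' (fun b hb => h b (by simp [hb])) (fun b hb => h' b (by simp [hb]))
        (by simpa using hl) h2]

include hν2

lemma code_bdd (N : ℕ) (t : List (List Bool)) : ∀ (s : St), Ok s → s.w ≤ 7 →
    (∀ a ∈ t, a.length = N) → ∀ i, (run θ s ((code θ ν s t).take i)).w ≤
      4 ^ (13 * N + rots θ) * 7 := by
  induction t with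
  | nil =>
    intro s _ hw _ i
    rw [code, List.take_nil, run_nil]
    have : (1 : ℝ) ≤ 4 ^ (13 * N + rots θ) := one_le_pow₀ (by norm_num)
    nlinarith
  | cons a t ih =>
    intro s hs hw h i
    have ha : a.length = N := h a (by simp)
    have hlen : (a ++ ν s a).length = 13 * N + rots θ := by
      rw [List.length_append, hν1, ha]
      ring
    rw [code, List.take_append, run_append]
    by_cases hi : i ≤ (a ++ ν s a).length
    · have h0 : i - (a ++ ν s a).length = 0 := by omega
      rw [h0, List.take_zero, run_nil]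
      refine (w_run_le θ _ hs).trans ?_
      have h1 : (List.take i (a ++ ν s a)).length ≤ 13 * N + rots θ := by
        rw [List.length_take, hlen]
        exact min_le_right _ _
      have hw0 := ok_w hs
      gcongr
      norm_num
    · rw [List.take_of_length_le (by omega)]
      exact ih _ (ok_run θ _ hs) (hν2 s a hs hw) (fun b hb => h b (by simp [hb])) _

end

/-- The blocks. -/
def blocks {j N : ℕ} (f : Fin j → Fin N → Bool) : List (List Bool) :=
  List.ofFn fun k => List.ofFn (f k)

lemma blocks_length {j N : ℕ} (f : Fin j → Fin N → Bool) : (blocks f).length = j := by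
  simp [blocks]

lemma blocks_mem {j N : ℕ} (f : Fin j → Fin N → Bool) : ∀ a ∈ blocks f, a.length = N := by
  intro a ha
  rw [blocks, List.mem_ofFn] at ha
  obtain ⟨k, rfl⟩ := ha
  simp

lemma blocks_inj {j N : ℕ} : Function.Injective (blocks (j := j) (N := N)) := by
  intro f g h
  have h1 := List.ofFn_injective h
  funext k
  exact List.ofFn_injective (congrFun h1 k)

lemma seqOf_eq {l l' : List Bool} (hl : l.length = l'.length)
    (h : ∀ i : ℕ, i < l.length → seqOf l i = seqOf l' i) : l = l' := by
  apply List.ext_getElem hl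
  intro i h1 h2
  have h3 := h i h1
  rw [seqOf, seqOf, if_pos (by omega), if_pos (by omega), Int.toNat_natCast,
    List.getD_eq_getElem _ _ h1, List.getD_eq_getElem _ _ h2] at h3
  exact h3

/-- The entourage of equality of the zeroth symbols. -/
def U0 : SetRel Seq Seq := {p | p.1 0 = p.2 0}

lemma U0_mem : U0 ∈ uniformity Seq := by
  have h1 : UniformContinuous (fun x : Seq => x 0) := Pi.uniformContinuous_proj _ 0
  have h2 : {p : Bool × Bool | p.1 = p.2} ∈ uniformity Bool := by
    rw [DiscreteUniformity.eq_principal_setRelId]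
    intro p hp
    exact hp
  exact h1 h2

lemma shift_iterate (k : ℕ) (x : Seq) (i : ℤ) : shift^[k] x i = x (i + k) := by
  induction k generalizing x with
  | zero => simp
  | succ k ih =>
    rw [Function.iterate_succ_apply, ih, shift]
    congr 1
    push_cast
    ring

theorem lower_bound (θ : ℝ) (hθ : 0 < θ) (hθ' : θ ≤ 1 / 20) :
    ((Real.log 2 / 14 : ℝ) : EReal) ≤ h θ := by
  classical
  obtain ⟨ν, hν1, hν2⟩ := exists_nu θ hθ hθ'
  set N := rots θ with hN
  have hNpos : 0 < N := Nat.ceil_pos.2 (div_pos Real.pi_pos hθ)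
  set L := 13 * N + rots θ with hL
  have hL14 : L = 14 * N := by omega
  have hLpos : L ≠ 0 := by omega
  set W : ℝ := 4 ^ L * 7 with hW
  have hW1 : 1 ≤ W := by
    have : (1 : ℝ) ≤ 4 ^ L := one_le_pow₀ (by norm_num)
    rw [hW]
    nlinarith
  -- the sequences
  let X : (j : ℕ) → (Fin j → Fin N → Bool) → Seq := fun j f => seqOf (code θ ν s0 (blocks f))
  have hlen : ∀ (j : ℕ) (f : Fin j → Fin N → Bool),
      (code θ ν s0 (blocks f)).length = L * j := by
    intro j f
    rw [code_length θ ν hν1 N _ _ (blocks_mem f), blocks_length]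
  have hXmem : ∀ j f, X j f ∈ Bset θ (4 * W) := by
    intro j f
    apply seqOf_mem θ _ W hW1
    intro i
    exact code_bdd θ ν hν1 hν2 N _ s0 ok_s0 (by simp [s0]) (blocks_mem f) i
  have hXeq : ∀ j (f g : Fin j → Fin N → Bool),
      (∀ i : ℕ, i < L * j → X j f i = X j g i) → f = g := by
    intro j f g hfg
    apply blocks_inj
    apply code_inj θ ν hν1 N _ s0 _ (blocks_mem f) (blocks_mem g)
      (by rw [blocks_length, blocks_length])
    apply seqOf_eq (by rw [hlen, hlen])
    intro i hi
    rw [hlen] at hi
    exact hfg i hi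
  -- the nets
  have hnet : ∀ j : ℕ, ((2 ^ N) ^ j : ℕ) ≤ Dynamics.netMaxcard shift (Bset θ (4 * W)) U0 (L * j) := by
    intro j
    have hinj : Function.Injective (X j) := fun f g hfg => hXeq j f g (fun i _ => by rw [hfg])
    have hcard : (Finset.univ.image (X j)).card = (2 ^ N) ^ j := by
      rw [Finset.card_image_of_injective _ hinj, Finset.card_univ]
      simp
    rw [← hcard]
    apply Dynamics.IsDynNetIn.card_le_netMaxcard
    refine ⟨?_, ?_⟩
    · intro x hx
      rw [Finset.coe_image, Set.mem_image] at hx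
      obtain ⟨f, _, rfl⟩ := hx
      exact hXmem j f
    · intro x hx y hy hxy
      rw [Finset.coe_image, Set.mem_image] at hx hy
      obtain ⟨f, _, rfl⟩ := hx
      obtain ⟨g, _, rfl⟩ := hy
      rw [Function.onFun, Set.disjoint_left]
      intro z hz1 hz2
      apply hxy
      congr 1
      apply hXeq j f g
      intro i hi
      rw [Dynamics.mem_ball_dynEntourage] at hz1 hz2
      have h1 := hz1 i hi
      have h2 := hz2 i hi
      have h3 : (shift^[i] (X j f)) 0 = (shift^[i] z) 0 := h1
      have h4 : (shift^[i] (X j g)) 0 = (shift^[i] z) 0 := h2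
      rw [shift_iterate, shift_iterate] at h3 h4
      rw [zero_add] at h3 h4
      rw [h3, h4]
  -- entropy
  have hmono : Monotone fun n : ℕ =>
      ((Dynamics.netMaxcard shift (Bset θ (4 * W)) U0 n : ℕ∞) : ENNReal) :=
    fun _ _ h => ENat.toENNReal_mono (Dynamics.netMaxcard_monotone_time _ _ _ h)
  have h1 := hmono.expGrowthSup_comp_mul hLpos
  have h2 : ExpGrowth.expGrowthSup (fun n : ℕ => (2 ^ N : ENNReal) ^ n) ≤
      ExpGrowth.expGrowthSup ((fun n : ℕ =>
      ((Dynamics.netMaxcard shift (Bset θ (4 * W)) U0 n : ℕ∞) : ENNReal)) ∘ (fun j => L * j)) := by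
    apply ExpGrowth.expGrowthSup_monotone
    intro j
    have := ENat.toENNReal_mono (hnet j)
    simpa using this
  rw [ExpGrowth.expGrowthSup_pow, ENNReal.log_pow] at h2
  have h3 : ENNReal.log 2 = ((Real.log 2 : ℝ) : EReal) := by
    have := ENNReal.log_ofReal_of_pos (x := 2) (by norm_num)
    rwa [ENNReal.ofReal_ofNat] at this
  rw [h3] at h2
  have h4 : (N : EReal) * ((Real.log 2 : ℝ) : EReal) ≤
      (L : EReal) * Dynamics.netEntropyEntourage shift (Bset θ (4 * W)) U0 := by
    refine h2.trans (le_of_eq ?_)
    exact h1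
  have h5 : ((Real.log 2 / 14 : ℝ) : EReal) ≤
      Dynamics.netEntropyEntourage shift (Bset θ (4 * W)) U0 := by
    rw [hL14] at h4
    generalize Dynamics.netEntropyEntourage shift (Bset θ (4 * W)) U0 = E at h4 ⊢
    have hNr : (0 : ℝ) < N := by exact_mod_cast hNpos
    induction E using EReal.rec with
    | bot =>
      exfalso
      rw [EReal.mul_bot_of_pos (by exact_mod_cast Nat.mul_pos (by norm_num) hNpos)] at h4
      rw [le_bot_iff] at h4
      have : (N : EReal) * ((Real.log 2 : ℝ) : EReal) = (((N : ℝ) * Real.log 2 : ℝ) : EReal) := by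
        push_cast
        rfl
      rw [this] at h4
      exact EReal.coe_ne_bot _ h4
    | top => exact le_top
    | coe E =>
      have e1 : (N : EReal) * ((Real.log 2 : ℝ) : EReal) = (((N : ℝ) * Real.log 2 : ℝ) : EReal) := by
        push_cast
        rfl
      have e2 : ((14 * N : ℕ) : EReal) * (E : EReal) = (((14 * N : ℝ) * E : ℝ) : EReal) := by
        push_cast
        rfl
      rw [e1, e2, EReal.coe_le_coe_iff] at h4
      rw [EReal.coe_le_coe_iff]
      rw [div_le_iff₀ (by norm_num)]
      nlinarith
  refine h5.trans ((Dynamics.netEntropyEntourage_le_coverEntropy shift _ U0_mem).trans ?_)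
  exact le_iSup (fun κ : ℝ => Dynamics.coverEntropy shift (Bset θ κ)) (4 * W)

end

end Pool.Agent.H96ent
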