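import Mathlib
import Pool.Agent.H96ent.Lower

open Filter Topology

namespace Pool.Agent.H96ent

noncomputable section

/-- The number of symbols `1` in a window. -/
def cnt (x : Seq) (m : ℤ) (n : ℕ) : ℕ := ((Finset.range n).filter fun i : ℕ => x (i + m) = true).card

lemma cnt_succ (x : Seq) (m : ℤ) (n : ℕ) :
    cnt x m (n + 1) = cnt x m n + if x (n + m) = true then 1 else 0 := by
  rw [cnt, Finset.range_add_one, Finset.filter_insert]
  split_ifs with h
  · rw [Finset.card_insert_of_notMem (by simp), cnt]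
  · rw [cnt, add_zero]

lemma fiber_zero (x : Seq) (m : ℤ) (n : ℕ) :
    fiberProd 0 n (shiftBy m x) 0 0 = 2 ^ cnt x m n ∧ fiberProd 0 n (shiftBy m x) 1 0 = 0 := by
  induction n with
  | zero => simp [fiberProd, cnt]
  | succ n ih =>
    obtain ⟨h1, h2⟩ := ih
    rw [fiberProd, cnt_succ]
    have e : A 0 (shiftBy (n : ℤ) (shiftBy m x)) = if x (n + m) = true then D else 1 := by
      rw [A, R_zero]
      simp only [shiftBy, zero_add]
    rw [e, Matrix.mul_apply, Matrix.mul_apply, Fin.sum_univ_two, Fin.sum_univ_two, h1, h2]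
    split_ifs
    · simp [D, pow_succ]
      ring
    · simp

lemma cnt_le {κ : ℝ} {x : Seq} (hx : x ∈ Bset 0 κ) (m : ℤ) (n : ℕ) : cnt x m n ≤ ⌈κ⌉₊ := by
  have h := hx m n 0 0
  rw [(fiber_zero x m n).1, abs_of_pos (by positivity)] at h
  have h1 : (cnt x m n : ℝ) < 2 ^ cnt x m n := by exact_mod_cast Nat.lt_two_pow_self
  have h2 : (cnt x m n : ℝ) ≤ ⌈κ⌉₊ := (h1.le.trans h).trans (Nat.le_ceil _)
  exact_mod_cast h2

/-- Equality on a symmetric window. -/
def UU (m : ℕ) : SetRel Seq Seq := {p | ∀ i : ℤ, -m ≤ i → i ≤ m → p.1 i = p.2 i}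

instance (m : ℕ) : (UU m).IsSymm := ⟨fun _ _ h i h1 h2 => (h i h1 h2).symm⟩

lemma UU_comp (m : ℕ) : SetRel.comp (UU m) (UU m) ⊆ UU m := by
  rintro ⟨x, z⟩ ⟨y, hxy, hyz⟩ i h1 h2
  exact (hxy i h1 h2).trans (hyz i h1 h2)

lemma UU_anti {m n : ℕ} (h : m ≤ n) : UU n ⊆ UU m := by
  intro p hp i h1 h2
  exact hp i (by omega) (by omega)

lemma exists_UU {V : SetRel Seq Seq} (hV : V ∈ uniformity Seq) : ∃ m, UU m ⊆ V := by
  rw [Pi.uniformity] at hV
  simp only [DiscreteUniformity.eq_principal_setRelId, Filter.comap_principal] at hV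
  rw [(Filter.hasBasis_iInf_principal_finite _).mem_iff] at hV
  obtain ⟨t, ht, hV⟩ := hV
  obtain ⟨M, hM⟩ := (ht.image (fun i : ℤ => i.natAbs)).bddAbove
  refine ⟨M, fun p hp => hV ?_⟩
  simp only [Set.mem_iInter, Set.mem_preimage]
  intro i hi
  have h1 : i.natAbs ≤ M := hM ⟨i, hi, rfl⟩
  have h2 := hp i (by omega) (by omega)
  exact h2

/-- A finite family of sequences with few symbols `1`. -/
def fam (m K M : ℕ) (f : Fin K → Fin (M + 1)) : Seq := by
  classical
  exact fun i => decide (∃ k, i + m = (f k : ℕ))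

open scoped Classical in
lemma cover (κ : ℝ) (m n : ℕ) :
    Dynamics.IsDynCoverOf shift (Bset 0 κ) (UU m) n
      (Finset.univ.image (fam m ⌈κ⌉₊ (n + 2 * m)) : Finset Seq) := by
  intro x hx
  set K := ⌈κ⌉₊ with hK
  set M := n + 2 * m with hM
  have hc := cnt_le hx (-(m : ℤ)) M
  set P := (Finset.range M).filter fun i : ℕ => x (i + -(m : ℤ)) = true with hP
  have hPM : ∀ k : ℕ, P.toList.getD k M < M + 1 := by
    intro k
    by_cases hk : k < P.toList.length
    · rw [List.getD_eq_getElem _ _ hk]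
      have h1 : P.toList[k] ∈ P := Finset.mem_toList.1 (List.getElem_mem hk)
      have h2 := Finset.mem_range.1 (Finset.mem_filter.1 h1).1
      omega
    · rw [List.getD_eq_default _ _ (by omega)]
      omega
  let f : Fin K → Fin (M + 1) := fun k => ⟨P.toList.getD k M, hPM k⟩
  refine ⟨fam m K M f, by simp, ?_⟩
  rw [Dynamics.mem_dynEntourage]
  intro k hk i hi1 hi2
  simp only [shift_iterate]
  -- compare at `i + k`
  set a : ℤ := i + k with ha
  have ha1 : 0 ≤ a + m := by omega
  have ha2 : a + m < M := by omega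
  obtain ⟨b, hb⟩ := Int.eq_ofNat_of_zero_le ha1
  have hbM : b < M := by omega
  have hab : a = b + -(m : ℤ) := by omega
  rw [Bool.eq_iff_iff, fam]
  simp only [decide_eq_true_eq]
  constructor
  · intro hxa
    have hbP : b ∈ P := by
      rw [hP, Finset.mem_filter]
      exact ⟨Finset.mem_range.2 hbM, by rw [← hab]; exact hxa⟩
    obtain ⟨j, hj, hjb⟩ := List.getElem_of_mem (Finset.mem_toList.2 hbP)
    have hjK : j < K := by
      rw [Finset.length_toList] at hj
      have : P.card ≤ K := hc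
      omega
    refine ⟨⟨j, hjK⟩, ?_⟩
    simp only [f]
    rw [List.getD_eq_getElem _ _ hj, hjb, hb]
  · rintro ⟨j, hj⟩
    simp only [f] at hj
    have h1 : b = P.toList.getD j M := by
      have : (b : ℤ) = (P.toList.getD j M : ℕ) := by rw [← hj, hb]
      exact_mod_cast this
    by_cases hjl : (j : ℕ) < P.toList.length
    · rw [List.getD_eq_getElem _ _ hjl] at h1
      have h2 : P.toList[(j : ℕ)] ∈ P := Finset.mem_toList.1 (List.getElem_mem hjl)
      rw [← h1] at h2
      have h3 := (Finset.mem_filter.1 h2).2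
      rw [hab]
      exact h3
    · rw [List.getD_eq_default _ _ (by omega)] at h1
      omega

lemma mapsTo_shift (κ θ : ℝ) : Set.MapsTo shift (Bset θ κ) (Bset θ κ) := by
  intro x hx m n i j
  have h1 : shiftBy m (shift x) = shiftBy (m + 1) x := by
    funext i
    simp only [shiftBy, shift]
    congr 1
    ring
  rw [h1]
  exact hx _ _ _ _

lemma log_nat (k : ℕ) (hk : 0 < k) : ENNReal.log ((k : ℕ) : ENNReal) = ((Real.log k : ℝ) : EReal) := by
  have h := ENNReal.log_ofReal_of_pos (x := (k : ℝ)) (by exact_mod_cast hk)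
  rwa [ENNReal.ofReal_natCast] at h

lemma entourage_le (κ : ℝ) (m n : ℕ) (hn : n ≠ 0) :
    Dynamics.coverEntropyEntourage shift (Bset 0 κ) (UU m) ≤
      ((⌈κ⌉₊ * Real.log (n + 2 * m + 1) / n : ℝ) : EReal) := by
  classical
  have h1 := (cover κ m n).coverEntropyEntourage_le_log_card_div (mapsTo_shift κ 0) hn
  have h2 : Dynamics.coverEntropyEntourage shift (Bset 0 κ) (UU m) ≤
      Dynamics.coverEntropyEntourage shift (Bset 0 κ) (SetRel.comp (UU m) (UU m)) :=
    Dynamics.coverEntropyEntourage_antitone _ _ (UU_comp m)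
  refine (h2.trans h1).trans ?_
  have hcard : (Finset.univ.image (fam m ⌈κ⌉₊ (n + 2 * m))).card ≤ (n + 2 * m + 1) ^ ⌈κ⌉₊ := by
    refine Finset.card_image_le.trans ?_
    rw [Finset.card_univ]
    simp
  have h3 : ENNReal.log ((Finset.univ.image (fam m ⌈κ⌉₊ (n + 2 * m))).card : ENNReal) ≤
      ((⌈κ⌉₊ * Real.log (n + 2 * m + 1) : ℝ) : EReal) := by
    have h4 : ENNReal.log ((Finset.univ.image (fam m ⌈κ⌉₊ (n + 2 * m))).card : ENNReal) ≤
        ENNReal.log (((n + 2 * m + 1) ^ ⌈κ⌉₊ : ℕ) : ENNReal) := by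
      apply ENNReal.log_monotone
      exact_mod_cast hcard
    refine h4.trans (le_of_eq ?_)
    rw [log_nat _ (by positivity)]
    congr 1
    push_cast
    rw [Real.log_pow]
  have hn' : (0 : ℝ) < n := by
    have := Nat.pos_of_ne_zero hn
    exact_mod_cast this
  have h5 := EReal.monotone_div_right_of_nonneg (b := (n : EReal)) n.cast_nonneg' h3
  refine h5.trans (le_of_eq ?_)
  simp only
  rw [EReal.coe_div]
  rfl

theorem h_zero : h 0 = 0 := by
  apply le_antisymm
  · apply iSup_le
    intro κ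
    apply iSup₂_le
    intro V hV
    obtain ⟨m, hm⟩ := exists_UU hV
    refine (Dynamics.coverEntropyEntourage_antitone _ _ hm).trans ?_
    have hlim : Tendsto (fun n : ℕ => ⌈κ⌉₊ * Real.log (n + 2 * m + 1) / n) atTop (𝓝 0) := by
      have hc : Tendsto (fun n : ℕ => (n : ℝ) + 2 * m + 1) atTop atTop := by
        apply tendsto_atTop_add_const_right
        apply tendsto_atTop_add_const_right
        exact tendsto_natCast_atTop_atTop
      have h1 : Tendsto (fun n : ℕ => Real.log ((n : ℝ) + 2 * m + 1) / ((n : ℝ) + 2 * m + 1)) atTop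
          (𝓝 0) := (Real.isLittleO_log_id_atTop.tendsto_div_nhds_zero).comp hc
      have h2 : Tendsto (fun n : ℕ => 1 + (2 * m + 1 : ℝ) / n) atTop (𝓝 (1 + 0)) :=
        tendsto_const_nhds.add (tendsto_const_div_atTop_nhds_zero_nat _)
      have h3 := (h1.mul h2).const_mul (⌈κ⌉₊ : ℝ)
      rw [zero_mul, mul_zero] at h3
      apply h3.congr'
      filter_upwards [eventually_ne_atTop 0] with n hn
      have hn' : (n : ℝ) ≠ 0 := by exact_mod_cast hn
      have hn2 : (n : ℝ) + 2 * m + 1 ≠ 0 := by positivity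
      field_simp
      ring
    have hlim' := (continuous_coe_real_ereal.tendsto 0).comp hlim
    refine ge_of_tendsto hlim' ?_
    filter_upwards [eventually_ne_atTop 0] with n hn
    exact entourage_le κ m n hn
  · have hne : (Bset 0 1).Nonempty := by
      refine ⟨fun _ => false, ?_⟩
      intro m n i j
      have : fiberProd 0 n (shiftBy m (fun _ => false)) = 1 := by
        induction n with
        | zero => rfl
        | succ n ih =>
          rw [fiberProd, ih, A, R_zero]
          simp [shiftBy]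
      rw [this, Matrix.one_apply]
      split_ifs <;> simp
    exact (Dynamics.coverEntropy_nonneg shift hne).trans
      (le_iSup (fun κ : ℝ => Dynamics.coverEntropy shift (Bset 0 κ)) 1)

end

end Pool.Agent.H96ent
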